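import Pool.Agent.MP_760060_nt.W.Defs

/-! Basic facts on the objects of `Defs`. -/

open Finset Polynomial Filter Topology

namespace Pool.Agent.MP_760060_nt.W

theorem mem_AP {c x : ℤ} {h : ℕ} :
    x ∈ AP c h ↔ (x + c) % 10 = 0 ∧ -(10 * (h : ℤ)) ≤ x + c ∧ x + c ≤ 10 * h := by
  simp only [AP, mem_image, mem_Icc]
  constructor
  · rintro ⟨i, ⟨h1, h2⟩, rfl⟩
    omega
  · rintro ⟨h1, h2, h3⟩
    exact ⟨(x + c) / 10, by omega, by omega⟩

theorem AP_inj (c : ℤ) : Function.Injective fun i : ℤ => 10 * i - c := fun a b h => by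
  simp only at h
  omega

theorem card_AP (c : ℤ) (h : ℕ) : #(AP c h) = 2 * h + 1 := by
  rw [AP, card_image_of_injective _ (AP_inj c), Int.card_Icc]
  omega

theorem AP_eq_range (c : ℤ) (h : ℕ) :
    AP c h = (range (2 * h + 1)).image fun j : ℕ => -(10 * (h : ℤ)) - c + 10 * j := by
  ext x
  simp only [mem_AP, mem_image, mem_range]
  constructor
  · rintro ⟨h1, h2, h3⟩
    exact ⟨((x + c) / 10 + h).toNat, by omega, by omega⟩
  · rintro ⟨j, h1, rfl⟩
    omega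

theorem prod_AP {M : Type} [CommMonoid M] (c : ℤ) (h : ℕ) (f : ℤ → M) :
    ∏ t ∈ AP c h, f t = ∏ j ∈ range (2 * h + 1), f (-(10 * (h : ℤ)) - c + 10 * j) := by
  rw [AP_eq_range, prod_image fun a _ b _ hab => by omega]

theorem sum_AP {M : Type} [AddCommMonoid M] (c : ℤ) (h : ℕ) (f : ℤ → M) :
    ∑ t ∈ AP c h, f t = ∑ j ∈ range (2 * h + 1), f (-(10 * (h : ℤ)) - c + 10 * j) := by
  rw [AP_eq_range, sum_image fun a _ b _ hab => by omega]

theorem AP_disj {c c' : ℤ} (h h' : ℕ) (hc : (c - c') % 10 ≠ 0) : Disjoint (AP c h) (AP c' h') := by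
  rw [disjoint_left]
  intro x h1 h2
  rw [mem_AP] at h1 h2
  omega

theorem mem_XA {v : ℕ} {x : ℤ} : x ∈ XA v ↔ x % 10 = 0 ∧ -(100 * (v : ℤ)) ≤ x ∧ x ≤ 100 * v := by
  rw [XA, mem_AP]
  omega

theorem mem_XB {v : ℕ} {x : ℤ} :
    x ∈ XB v ↔ x % 10 = 9 ∧ -(230 * (v : ℤ)) ≤ x + 1 ∧ x + 1 ≤ 230 * v := by
  rw [XB, mem_AP]
  omega

theorem mem_XX {v : ℕ} {x : ℤ} : x ∈ XX v ↔ x ∈ XA v ∨ x ∈ XB v := mem_union

theorem mem_ZZ {v : ℕ} {x : ℤ} : x ∈ ZZ v ↔
    (x % 10 = 7 ∧ -(20 * (v : ℤ)) ≤ x + 3 ∧ x + 3 ≤ 20 * v) ∨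
    (x % 10 = 5 ∧ -(60 * (v : ℤ)) ≤ x + 5 ∧ x + 5 ≤ 60 * v) ∨
    (x % 10 = 1 ∧ -(50 * (v : ℤ)) ≤ x + 9 ∧ x + 9 ≤ 50 * v) := by
  simp only [ZZ, mem_union, mem_AP]
  omega

theorem disj_AB (v : ℕ) : Disjoint (XA v) (XB v) := AP_disj _ _ (by decide)

theorem disj_35 (a b : ℕ) : Disjoint (AP 3 a) (AP 5 b) := AP_disj _ _ (by decide)

theorem disj_359 (a b c : ℕ) : Disjoint (AP 3 a ∪ AP 5 b) (AP 9 c) :=
  disjoint_union_left.2 ⟨AP_disj _ _ (by decide), AP_disj _ _ (by decide)⟩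

theorem card_XX (v : ℕ) : #(XX v) = 66 * v + 2 := by
  rw [XX, card_union_of_disjoint (disj_AB v), XA, XB, card_AP, card_AP]
  ring

theorem card_ZZ (v : ℕ) : #(ZZ v) = 26 * v + 3 := by
  rw [ZZ, card_union_of_disjoint (disj_359 _ _ _), card_union_of_disjoint (disj_35 _ _), card_AP,
    card_AP, card_AP]
  ring

theorem wt_XX {v : ℕ} {x : ℤ} (h : x ∈ XX v) : wt x = 0 := by
  rw [mem_XX, mem_XA, mem_XB] at h
  rw [wt, if_neg (by omega), if_neg (by omega), if_neg (by omega)]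

theorem wt_ne {t : ℤ} : wt t ≠ 0 ↔ t % 10 = 7 ∨ t % 10 = 5 ∨ t % 10 = 1 := by
  unfold wt
  split_ifs <;> omega

theorem wt_congr {s t : ℤ} (h : s % 10 = t % 10) : wt s = wt t := by rw [wt, wt, h]

theorem abs_wt (t : ℤ) : |wt t| ≤ 10 := by
  unfold wt
  split_ifs <;> decide

theorem XX_not_ZZ {v : ℕ} {x : ℤ} (h : x ∈ XX v) : x ∉ ZZ v := by
  rw [mem_XX, mem_XA, mem_XB] at h
  rw [mem_ZZ]
  omega

theorem om_ne (S : Finset ℤ) (x : ℤ) : om S x ≠ 0 :=
  prod_ne_zero_iff.2 fun y hy => sub_ne_zero.2 fun h =>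
    (mem_erase.1 hy).1 (by exact_mod_cast h.symm)

theorem lam_eq {x R : ℤ} (h1 : -R ≤ x) (h2 : x ≤ R) : lam x = ∑ t ∈ Icc (-R) R,
    (wt t : ℚ) * ((if t < x then 1 else 0) - if t < 0 then 1 else 0) / (x - t) := by
  have e : ∀ a b : ℤ, -R ≤ a → b ≤ R → ∑ t ∈ Ioo a b, (wt t : ℚ) / (x - t) =
      ∑ t ∈ Icc (-R) R, if a < t ∧ t < b then (wt t : ℚ) / (x - t) else 0 := by
    intro a b ha hb
    rw [← sum_filter]
    refine sum_congr ?_ fun _ _ => rfl
    ext t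
    simp only [mem_Ioo, mem_filter, mem_Icc]
    omega
  rw [lam, e _ _ (by omega) h2, e _ _ h1 (by omega), ← sum_sub_distrib]
  refine sum_congr rfl fun t _ => ?_
  rcases eq_or_ne t 0 with rfl | h0
  · simp [wt]
  rcases eq_or_ne t x with rfl | hx
  · simp
  split_ifs <;> first | omega | ring

theorem lam_eq_lamS {v : ℕ} (hv : 1 ≤ v) {x : ℤ} (hx : x ∈ XX v) :
    lam x = lamS v (fun _ => 0) x := by
  rw [mem_XX, mem_XA, mem_XB] at hx
  exact lam_eq (by omega) (by omega)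

theorem lam_shift (x : ℤ) : lam (x + 10) - lam x =
    8 / ((x : ℚ) + 5) - 10 / (x + 9) - 3 / (x + 3) := by
  have hR : ∀ y : ℤ, y ≤ |y| ∧ -|y| ≤ y := fun y => ⟨le_abs_self y, neg_abs_le y⟩
  obtain ⟨R, h1, h2, h3⟩ : ∃ R : ℤ, -R ≤ x - 20 ∧ x + 20 ≤ R ∧ 20 ≤ R :=
    ⟨|x| + 20, by linarith [hR x], by linarith [hR x], by linarith [abs_nonneg x]⟩
  have e1 : lam (x + 10) = ∑ t ∈ Icc (-R) R,
      (wt t : ℚ) * ((if t < x then 1 else 0) - if t < -10 then 1 else 0) / (x - t) := by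
    rw [lam_eq (R := R + 10) (by omega) (by omega)]
    have e : Icc (-(R + 10)) (R + 10) =
        (Icc (-R - 20) R).map (addRightEmbedding 10) := by
      rw [map_add_right_Icc]
      congr 1
      ring
    rw [e, sum_map]
    symm
    refine sum_subset_zero_on_sdiff (Icc_subset_Icc_left (by omega)) (fun t ht => ?_) fun t _ => ?_
    · rw [Finset.mem_sdiff, mem_Icc, mem_Icc] at ht
      simp only [addRightEmbedding_apply]
      rw [if_pos (by omega), if_pos (by omega)]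
      simp
    · simp only [addRightEmbedding_apply, add_lt_add_iff_right]
      rw [wt_congr (s := t + 10) (t := t) (by omega),
        if_congr (show t + 10 < 0 ↔ t < -10 by omega) rfl rfl]
      push_cast
      ring
  rw [e1, lam_eq (R := R) (by omega) (by omega), ← sum_sub_distrib,
    ← sum_subset (s₁ := {-3, -5, -9}) (fun t ht => by
      simp only [mem_insert, mem_singleton, mem_Icc] at ht ⊢
      omega) fun t _ ht => ?_]
  · rw [sum_insert (by decide), sum_insert (by decide), sum_singleton]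
    simp only [wt]
    norm_num
    split_ifs <;> ring
  · simp only [mem_insert, mem_singleton, not_or] at ht
    by_cases h : wt t = 0
    · simp [h]
    rw [← Ne, wt_ne] at h
    rw [if_congr (show t < -10 ↔ t < 0 by omega) rfl rfl, sub_self]

/-! ### divided differences -/

theorem dd_coeff (S : Finset ℤ) (G : ℚ[X]) (h : G.degree < #S) :
    dd S (fun x => G.eval (x : ℚ)) = G.coeff (#S - 1) :=
  (Lagrange.coeff_eq_sum (v := fun x : ℤ => (x : ℚ)) (Int.cast_injective.injOn) h).symm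

theorem dd_zero (S : Finset ℤ) (G : ℚ[X]) (h : G.natDegree + 2 ≤ #S) :
    dd S (fun x => G.eval (x : ℚ)) = 0 := by
  rw [dd_coeff S G (degree_le_natDegree.trans_lt (by exact_mod_cast (by omega)))]
  exact coeff_eq_zero_of_natDegree_lt (by omega)

theorem LL_add (v : ℕ) (f g : ℚ[X]) : LL v (f + g) = LL v f + LL v g := by
  simp only [LL, eval_add, mul_add, sum_add_distrib]

theorem LL_C_mul (v : ℕ) (c : ℚ) (f : ℚ[X]) : LL v (C c * f) = c * LL v f := by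
  simp only [LL, eval_mul, eval_C, mul_sum]
  exact sum_congr rfl fun _ _ => by ring

/-- `LL` as a linear map -/
noncomputable def LLl (v : ℕ) : ℚ[X] →ₗ[ℚ] ℚ where
  toFun := LL v
  map_add' := LL_add v
  map_smul' c f := by rw [smul_eq_C_mul, LL_C_mul]; rfl

theorem LLl_apply (v : ℕ) (f : ℚ[X]) : LLl v f = LL v f := rfl

theorem natDegree_zt (y : Fin 4 → ℕ) : (zt y).natDegree = 4 := by
  rw [zt, natDegree_prod_of_monic _ _ fun k _ => monic_X_sub_C _]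
  simp only [natDegree_X_sub_C]
  simp

theorem eval_zt (y : Fin 4 → ℕ) (x : ℚ) : (zt y).eval x = ∏ k, (x - y k) := by
  simp [zt, eval_prod]

theorem nd_sq (u k : ℕ) : nd u k ^ 2 = (wk u k : ℂ) := by
  unfold nd wk
  split_ifs
  · simp
  · simp [mul_pow]

theorem yk_pos {u : ℕ} (hu : 1 ≤ u) (k : ℕ) : 400 ≤ yk u k := by
  unfold yk
  split_ifs <;> omega

theorem yk_le {u k : ℕ} (hk : k < 90 * u) : yk u k ≤ 5440 * u := by
  unfold yk
  split_ifs <;> omega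

theorem yk_lt {u k l : ℕ} (h : k < l) (h1 : l < 54 * u ∨ 54 * u ≤ k) : yk u k + 10 ≤ yk u l := by
  unfold yk
  split_ifs <;> omega

theorem wk_inj {u : ℕ} (hu : 1 ≤ u) : Function.Injective (wk u) := by
  have key : ∀ k l, k < l → wk u k ≠ wk u l := by
    intro k l h
    have a1 : (400 : ℚ) ≤ yk u k := by exact_mod_cast yk_pos hu k
    have a2 : (400 : ℚ) ≤ yk u l := by exact_mod_cast yk_pos hu l
    by_cases h1 : l < 54 * u ∨ 54 * u ≤ k
    · have a3 : (yk u k : ℚ) + 10 ≤ yk u l := by exact_mod_cast yk_lt h h1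
      unfold wk
      split_ifs <;> intro h2 <;> nlinarith
    · unfold wk
      rw [if_pos (by omega), if_neg (by omega)]
      intro h2
      nlinarith
  intro k l h
  rcases lt_trichotomy k l with h1 | h1 | h1
  · exact absurd h (key _ _ h1)
  · exact h1
  · exact absurd h.symm (key _ _ h1)

/-! ### classes mod `p` -/

theorem cop_of_prime {p : ℕ} (hp : p.Prime) (h2 : p ≠ 2) (h5 : p ≠ 5) : Cop p := by
  have a2 : ¬ 2 ∣ p := fun h => h2 ((Nat.prime_dvd_prime_iff_eq Nat.prime_two hp).1 h).symm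
  have a5 : ¬ 5 ∣ p := fun h => h5 ((Nat.prime_dvd_prime_iff_eq Nat.prime_five hp).1 h).symm
  unfold Cop
  omega

theorem Cop.isCoprime {p : ℕ} (h : Cop p) : IsCoprime (p : ℤ) 10 := by
  have h1 : Nat.Coprime p 10 := by
    rw [Nat.Coprime, Nat.gcd_comm, Nat.gcd_rec]
    rcases h with h | h | h | h <;> rw [h] <;> rfl
  exact_mod_cast Nat.isCoprime_iff_coprime.2 h1

theorem Cop.not_dvd {p : ℕ} (h : Cop p) (hp : p.Prime) : ¬ (p : ℤ) ∣ 10 := fun hd => by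
  have h1 := h.isCoprime.isUnit_of_dvd hd
  rw [Int.isUnit_iff] at h1
  have := hp.two_le
  omega

theorem mem_cl {p m : ℕ} {S : Finset ℤ} {x : ℤ} :
    x ∈ cl p m S ↔ x ∈ S ∧ (p : ℤ) ∣ x - 10 * m := mem_filter

theorem exists_cls {p : ℕ} (h : Cop p) :
    ∃ μ : ℤ → ℕ, ∀ t, μ t < p ∧ ∀ m < p, ((p : ℤ) ∣ t - 10 * m ↔ μ t = m) := by
  have hp : 0 < p := by unfold Cop at h; omega
  have hp' : (0 : ℤ) < p := by exact_mod_cast hp
  obtain ⟨a, b, hab⟩ := h.isCoprime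
  refine ⟨fun t => (b * t % p).toNat, fun t => ?_⟩
  have h1 := Int.emod_nonneg (b * t) hp'.ne'
  have h2 := Int.emod_lt_of_pos (b * t) hp'
  have h3 : (p : ℤ) ∣ t - 10 * (b * t % p) := by
    refine ⟨a * t + 10 * (b * t / p), ?_⟩
    rw [Int.emod_def]
    linear_combination (-t) * hab
  beta_reduce
  refine ⟨by omega, fun m hm => ⟨fun h4 => ?_, fun h4 => ?_⟩⟩
  · have h5 : (p : ℤ) ∣ (b * t % p - m) * 10 := by
      rw [show (b * t % p - m) * 10 = t - 10 * m - (t - 10 * (b * t % p)) by ring]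
      exact dvd_sub h4 h3
    have h6 := Int.eq_zero_of_abs_lt_dvd (h.isCoprime.dvd_of_dvd_mul_right h5)
      (abs_lt.2 ⟨by omega, by omega⟩)
    omega
  · rwa [show (m : ℤ) = b * t % p by omega]

theorem sum_cl {M : Type} [AddCommMonoid M] {p : ℕ} (h : Cop p) (S : Finset ℤ) (f : ℤ → M) :
    ∑ m ∈ range p, ∑ x ∈ cl p m S, f x = ∑ x ∈ S, f x := by
  obtain ⟨μ, hμ⟩ := exists_cls h
  rw [← sum_fiberwise_of_maps_to (g := μ) (t := range p) fun x _ => mem_range.2 (hμ x).1]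
  refine sum_congr rfl fun m hm => sum_congr ?_ fun _ _ => rfl
  exact filter_congr fun x _ => (hμ x).2 m (mem_range.1 hm)

theorem sum_card_cl {p : ℕ} (h : Cop p) (S : Finset ℤ) : ∑ m ∈ range p, #(cl p m S) = #S := by
  simpa only [card_eq_sum_ones] using sum_cl h S fun _ => 1

theorem cl_union (p m : ℕ) (S T : Finset ℤ) : cl p m (S ∪ T) = cl p m S ∪ cl p m T :=
  filter_union _ _ _

theorem card_cl_union (p m : ℕ) {S T : Finset ℤ} (h : Disjoint S T) :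
    #(cl p m (S ∪ T)) = #(cl p m S) + #(cl p m T) := by
  rw [cl_union]
  exact card_union_of_disjoint (disjoint_filter_filter h)

theorem card_cl_XX (v p m : ℕ) :
    #(cl p m (XX v)) = #(cl p m (AP 0 (10 * v))) + #(cl p m (AP 1 (23 * v))) :=
  card_cl_union p m (disj_AB v)

theorem card_cl_ZZ (v p m : ℕ) : #(cl p m (ZZ v)) =
    #(cl p m (AP 3 (2 * v))) + #(cl p m (AP 5 (6 * v))) + #(cl p m (AP 9 (5 * v))) := by
  rw [ZZ, card_cl_union p m (disj_359 _ _ _), card_cl_union p m (disj_35 _ _)]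

/-! ### the `p`-adic size -/

theorem nw_nonneg (v p : ℕ) : 0 ≤ nw v p := by
  unfold nw
  split_ifs <;> positivity

section

variable {p : ℕ} [hp : Fact p.Prime] {a b : ℝ} {q r : ℚ}

theorem one_le_p : (1 : ℝ) ≤ p := by exact_mod_cast hp.out.one_le

theorem p_pos : (0 : ℝ) < p := by exact_mod_cast hp.out.pos

theorem Vb.mono (h : Vb p a q) (hab : a ≤ b) : Vb p b q :=
  le_trans h (Real.rpow_le_rpow_of_exponent_le one_le_p hab)

theorem vb_zero (b : ℝ) : Vb p b 0 := by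
  simp only [Vb, padicNorm.zero, Rat.cast_zero]
  exact Real.rpow_nonneg p_pos.le _

theorem Vb.mul (h1 : Vb p a q) (h2 : Vb p b r) : Vb p (a + b) (q * r) := by
  rw [Vb, padicNorm.mul, Real.rpow_add p_pos, Rat.cast_mul]
  exact mul_le_mul h1 h2 (by exact_mod_cast padicNorm.nonneg _) (Real.rpow_nonneg p_pos.le _)

theorem Vb.mul0 (h1 : Vb p 0 q) (h2 : Vb p b r) : Vb p b (q * r) := by simpa using h1.mul h2

theorem Vb.add (h1 : Vb p b q) (h2 : Vb p b r) : Vb p b (q + r) := by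
  have h : (padicNorm p (q + r) : ℝ) ≤ max (padicNorm p q : ℝ) (padicNorm p r) := by
    exact_mod_cast padicNorm.nonarchimedean
  exact h.trans (max_le h1 h2)

omit hp in
theorem Vb.neg (h : Vb p b q) : Vb p b (-q) := by rwa [Vb, padicNorm.neg]

theorem Vb.sub (h1 : Vb p b q) (h2 : Vb p b r) : Vb p b (q - r) := by
  rw [sub_eq_add_neg]
  exact h1.add h2.neg

theorem Vb.sum {ι : Type} {s : Finset ι} {f : ι → ℚ} (h : ∀ i ∈ s, Vb p b (f i)) :
    Vb p b (∑ i ∈ s, f i) :=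
  sum_induction f (Vb p b) (fun _ _ => Vb.add) (vb_zero b) h

theorem vb_int (n : ℤ) : Vb p 0 n := by
  rw [Vb, Real.rpow_zero]
  exact_mod_cast padicNorm.of_int n

theorem vb_nat (n : ℕ) : Vb p 0 n := by simpa using vb_int (p := p) n

theorem vb_one : Vb p 0 1 := by simpa using vb_int (p := p) 1

theorem Vb.prod {ι : Type} {s : Finset ι} {f : ι → ℚ} {c : ι → ℝ} (h : ∀ i ∈ s, Vb p (c i) (f i)) :
    Vb p (∑ i ∈ s, c i) (∏ i ∈ s, f i) := by
  classical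
  induction s using Finset.induction_on with
  | empty => simpa using vb_one
  | insert i s hi ih =>
    rw [sum_insert hi, prod_insert hi]
    exact (h i (mem_insert_self _ _)).mul (ih fun j hj => h j (mem_insert_of_mem hj))

theorem Vb.prod0 {ι : Type} {s : Finset ι} {f : ι → ℚ} (h : ∀ i ∈ s, Vb p 0 (f i)) :
    Vb p 0 (∏ i ∈ s, f i) := by simpa using Vb.prod (c := fun _ => 0) h

theorem Vb.pow (h : Vb p b q) (n : ℕ) : Vb p (n * b) (q ^ n) := by
  simpa using Vb.prod (s := range n) (c := fun _ => b) (f := fun _ => q) fun _ _ => h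

theorem vb_iff_val (hq : q ≠ 0) : Vb p b q ↔ -(padicValRat p q : ℝ) ≤ b := by
  have h1 : (1 : ℝ) < p := by exact_mod_cast hp.out.one_lt
  rw [Vb, padicNorm.eq_zpow_of_nonzero hq]
  push_cast
  rw [← Real.rpow_intCast, Int.cast_neg, Real.rpow_le_rpow_left_iff h1]

theorem vb_pow_dvd {n : ℤ} {k : ℕ} (h : (p : ℤ) ^ k ∣ n) : Vb p (-k) n := by
  have h1 := (padicNorm.dvd_iff_norm_le (p := p) (n := k) (z := n)).1 (by exact_mod_cast h)
  have h2 : ((padicNorm p n : ℚ) : ℝ) ≤ (((p : ℚ) ^ (-(k : ℤ)) : ℚ) : ℝ) := by exact_mod_cast h1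
  rw [Vb, ← Int.cast_natCast k, ← Int.cast_neg, Real.rpow_intCast]
  simpa using h2

theorem vb_dvd {n : ℤ} (h : (p : ℤ) ∣ n) : Vb p (-1) n := by
  simpa using vb_pow_dvd (k := 1) (n := n) (by simpa using h)

theorem vb_inv_pow {n : ℤ} {k : ℕ} (h : ¬ (p : ℤ) ^ (k + 1) ∣ n) : Vb p k (n : ℚ)⁻¹ := by
  have h0 : n ≠ 0 := fun h0 => h (h0 ▸ dvd_zero _)
  have h1 : (n : ℚ) ≠ 0 := by exact_mod_cast h0
  rw [vb_iff_val (inv_ne_zero h1), padicValRat.inv, padicValRat.of_int]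
  rw [padicValInt_dvd_iff, not_or] at h
  have h2 : padicValInt p n ≤ k := by omega
  push_cast
  rw [neg_neg]
  exact_mod_cast h2

theorem vb_inv_unit {n : ℤ} (h : ¬ (p : ℤ) ∣ n) : Vb p 0 (n : ℚ)⁻¹ := by
  simpa using vb_inv_pow (k := 0) (n := n) (by simpa using h)

theorem vb_inv_lt {n : ℤ} {k : ℕ} (h : |n| < (p : ℤ) ^ (k + 1)) : Vb p k (n : ℚ)⁻¹ := by
  rcases eq_or_ne n 0 with rfl | h0
  · simpa using vb_zero _
  exact vb_inv_pow fun hd => absurd (Int.le_of_dvd (abs_pos.2 h0) ((dvd_abs _ _).2 hd)) (not_le.2 h)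

theorem vb_inv_log {n : ℤ} {R : ℕ} (h : |n| ≤ R) : Vb p (Nat.log p R) (n : ℚ)⁻¹ :=
  vb_inv_lt (h.trans_lt (by exact_mod_cast Nat.lt_pow_succ_log_self hp.out.one_lt R))

theorem vb_inv_sub {m n : ℤ} (hm : ¬ (p : ℤ) ∣ m) (h : (p : ℤ) ∣ m - n) :
    Vb p (-1) ((m : ℚ)⁻¹ - (n : ℚ)⁻¹) := by
  have hn : ¬ (p : ℤ) ∣ n := fun hn => hm (by simpa using dvd_add h hn)
  have m0 : (m : ℚ) ≠ 0 := by exact_mod_cast fun h0 : m = 0 => hm (h0 ▸ dvd_zero _)
  have n0 : (n : ℚ) ≠ 0 := by exact_mod_cast fun h0 : n = 0 => hn (h0 ▸ dvd_zero _)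
  have e : (m : ℚ)⁻¹ - (n : ℚ)⁻¹ = (m : ℚ)⁻¹ * ((n : ℚ)⁻¹ * -((m - n : ℤ) : ℚ)) := by
    push_cast
    field_simp
    ring
  rw [e]
  exact (vb_inv_unit hm).mul0 ((vb_inv_unit hn).mul0 (vb_dvd h).neg)

theorem vb_det {ι : Type} [Fintype ι] [DecidableEq ι] (M : Matrix ι ι ℚ) (s t : ι → ℝ)
    (h : ∀ i j, Vb p (s i + t j) (M i j)) : Vb p (∑ i, s i + ∑ j, t j) M.det := by
  rw [Matrix.det_apply']
  refine Vb.sum fun σ _ => (vb_int _).mul0 ?_
  rw [← Equiv.sum_comp σ s, ← sum_add_distrib]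
  exact Vb.prod fun i _ => h _ _

theorem vb_zt (y : Fin 4 → ℕ) (x : ℤ) : Vb p 0 ((zt y).eval (x : ℚ)) := by
  rw [eval_zt]
  exact Vb.prod0 fun k _ => (vb_int x).sub (vb_nat _)

theorem ex_le {v : ℕ} {y : Fin 4 → ℕ} (h0 : HH v y ≠ 0) (h : Vb p (b + nw v p) (HH v y)) :
    ex v y p ≤ b := by
  rw [vb_iff_val h0] at h
  rw [ex]
  linarith

end

end Pool.Agent.MP_760060_nt.W
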