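import Mathlib

/-! Primes that are not Wieferich primes to base ten: definitions. -/

open Finset Polynomial Filter Topology

namespace Pool.Agent.MP_760060_nt.W

noncomputable section

/-- the points `10 i - c` with `|i| ≤ h` -/
def AP (c : ℤ) (h : ℕ) : Finset ℤ := (Icc (-(h : ℤ)) h).image fun i => 10 * i - c

def XA (v : ℕ) : Finset ℤ := AP 0 (10 * v)

def XB (v : ℕ) : Finset ℤ := AP 1 (23 * v)

def XX (v : ℕ) : Finset ℤ := XA v ∪ XB v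

def ZZ (v : ℕ) : Finset ℤ := AP 3 (2 * v) ∪ AP 5 (6 * v) ∪ AP 9 (5 * v)

def wt (t : ℤ) : ℤ :=
  if t % 10 = 7 then -3 else if t % 10 = 5 then 8 else if t % 10 = 1 then -10 else 0

def lam (x : ℤ) : ℚ :=
  ∑ t ∈ Ioo 0 x, (wt t : ℚ) / (x - t) - ∑ t ∈ Ioo x 0, (wt t : ℚ) / (x - t)

def om (S : Finset ℤ) (x : ℤ) : ℚ := ∏ y ∈ S.erase x, ((x : ℚ) - y)

/-- divided difference -/
def dd (S : Finset ℤ) (F : ℤ → ℚ) : ℚ := ∑ x ∈ S, F x / om S x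

def Zf (v : ℕ) (x : ℤ) : ℚ := ∏ t ∈ ZZ v, ((x : ℚ) - t)

def cf (v : ℕ) (x : ℤ) : ℚ := Zf v x / om (XX v) x

def LL (v : ℕ) (f : ℚ[X]) : ℚ := ∑ x ∈ XX v, lam x * cf v x * f.eval (x : ℚ)

def zt (y : Fin 4 → ℕ) : ℚ[X] := ∏ k, (X - C (y k : ℚ))

def KK (v : ℕ) (y : Fin 4 → ℕ) {ι : Type} (B : ι → ℚ[X]) : Matrix ι ι ℚ :=
  Matrix.of fun a b => LL v (zt y * B a * B b)

def HH (v : ℕ) (y : Fin 4 → ℕ) : ℚ := (KK v y fun i : Fin (18 * v) => X ^ (i : ℕ)).det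

/-- Wieferich to base ten -/
def Wf (p : ℕ) : Prop := p ^ 2 ∣ 10 ^ (p - 1) - 1

instance : DecidablePred Wf := fun p => inferInstanceAs (Decidable (p ^ 2 ∣ 10 ^ (p - 1) - 1))

/-- prime to ten -/
def Cop (p : ℕ) : Prop := p % 10 = 1 ∨ p % 10 = 3 ∨ p % 10 = 7 ∨ p % 10 = 9

/-- the loss at a prime that is not Wieferich -/
def nw (v p : ℕ) : ℝ := if Wf p then 0 else 66 * v + 2

/-- `|q|_p ≤ p ^ b` -/
def Vb (p : ℕ) (b : ℝ) (q : ℚ) : Prop := (padicNorm p q : ℝ) ≤ (p : ℝ) ^ b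

/-! ### the local analysis at a prime -/

/-- `lam` with the cut `0` replaced by `ξ t` -/
def lamS (v : ℕ) (ξ : ℤ → ℤ) (x : ℤ) : ℚ :=
  ∑ t ∈ Icc (-(231 * v : ℤ)) (231 * v),
    (wt t : ℚ) * ((if t < x then 1 else 0) - if t < ξ t then 1 else 0) / (x - t)

/-- the weight of the point `x` -/
def cw (v : ℕ) (y : Fin 4 → ℕ) (ξ : ℤ → ℤ) (x : ℤ) : ℚ :=
  lamS v ξ x * cf v x * (zt y).eval (x : ℚ)

/-- the class of `10 m` mod `p` -/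
def cl (p m : ℕ) (S : Finset ℤ) : Finset ℤ := S.filter fun x => (p : ℤ) ∣ x - 10 * m

def dl (p : ℕ) : ℤ :=
  if p % 10 = 1 then -1 else if p % 10 = 3 then 3 else if p % 10 = 7 then -3 else 1

/-- `x` is not polar for the cut `ξ` -/
def NP (p : ℕ) (ξ : ℤ → ℤ) (x : ℤ) : Prop :=
  ∀ t : ℤ, (p : ℤ) ∣ x - t → wt t ≠ 0 → (t < x ↔ t < ξ t)

def aa (ρ n z i : ℕ) : ℤ := 2 * i + z - (ρ + n) + if ρ ≤ i then 1 else 0

def Phi (τ : ℤ) (ρ n z : ℕ) : ℤ := ∑ i ∈ range (ρ + n), max 0 (τ - aa ρ n z i)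

def PhW (τ : ℤ) (ρ n z : ℕ) : ℤ := if ρ = 0 ∧ n = 2 then 0 else Phi τ ρ n z

/-- an admissible cut `ξ` of the class `m`, with a set `N` of points that are not polar -/
def Good (v p m : ℕ) (ξ : ℤ) (N : Finset ℤ) : Prop :=
  N ⊆ cl p m (XX v) ∧
  (∀ t : ℤ, (p : ℤ) ∣ t - 10 * m → wt t ≠ 0 → t ∉ ZZ v → (t < ξ ↔ t < 0)) ∧
  ∀ x ∈ N, NP p (fun _ => ξ) x

/-- the cost of the class `m` is at most `g` -/
def Cost (v p m : ℕ) (τ : ℤ) (g : ℝ) : Prop :=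
  ∃ (ξ : ℤ) (N : Finset ℤ), Good v p m ξ N ∧
    (PhW τ (#(cl p m (XX v)) - #N) #N #(cl p m (ZZ v)) : ℝ) ≤ g

/-- `Q = γᵀ B γ` with `γ` integral and `B i j` of valuation at least `(a i + a j) / 2` -/
def Rep (p : ℕ) {ι : Type} (Q : ι → ι → ℚ) (k : ℕ) (a : ℕ → ℝ) : Prop :=
  ∃ (γ : ℕ → ι → ℚ) (B : ℕ → ℕ → ℚ), (∀ i s, Vb p 0 (γ i s)) ∧
    (∀ i < k, ∀ j < k, Vb p (-(a i + a j) / 2) (B i j)) ∧
    ∀ s t, Q s t = ∑ i ∈ range k, ∑ j ∈ range k, γ i s * B i j * γ j t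

/-- the exponent of `|HH|_p`, less the loss -/
def ex (v : ℕ) (y : Fin 4 → ℕ) (p : ℕ) : ℝ := -(padicValRat p (HH v y) : ℝ) - nw v p

/-- the primes `p ≡ r` mod `10` in `(P₁ v / 1000, P₂ v / 1000]` cost at most `c v ^ 2` -/
def Rg (r P₁ P₂ : ℕ) (c : ℝ) : Prop :=
  ∀ ε : ℝ, 0 < ε → ∀ᶠ v : ℕ in atTop, ∀ y : Fin 4 → ℕ, HH v y ≠ 0 →
    ∑ p ∈ (Ioc (P₁ * v / 1000) (P₂ * v / 1000)).filter (fun p => p.Prime ∧ p % 10 = r),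
      ex v y p * Real.log p ≤ (c + ε) * (v : ℝ) ^ 2

/-! ### the real place -/

/-- `log |a + i b|` -/
def lg (a b : ℝ) : ℝ := Real.log (a ^ 2 + b ^ 2) / 2

/-- `∫₀ᵃ log |s + i b| ds` -/
def Fa (a b : ℝ) : ℝ := a * lg a b - a + b * Real.arctan (a / b)

/-- `∫ log |s - a + i b| ds` over `[-β, β]` -/
def Er (a b β : ℝ) : ℝ := Fa (β - a) b + Fa (β + a) b

def ZX (a b : ℝ) : ℝ := (Er a b 200 + Er a b 600 + Er a b 500 - Er a b 1000 - Er a b 2300) / 10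

def UU (a b : ℝ) : ℝ :=
  (40 * (Er a b 1000 - Er a b 460) + (-5 * Er b a 400 + 3 * Er b a 1840 + 2 * Er b a 5440)) / 400

def ph (a b : ℝ) : ℝ := ZX a b + 2 * UU a b

def yk (u k : ℕ) : ℕ :=
  if k < 54 * u then 460 * u + 5 + 10 * k
  else if k < 72 * u then 400 * u + 80 * (k - 54 * u) else 1840 * u + 200 * (k - 72 * u)

/-- the nodes, real or purely imaginary -/
def nd (u k : ℕ) : ℂ := if k < 54 * u then (yk u k : ℂ) else Complex.I * yk u k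

/-- the squares of the nodes -/
def wk (u k : ℕ) : ℚ := if k < 54 * u then (yk u k : ℚ) ^ 2 else -(yk u k : ℚ) ^ 2

def Om (u k : ℕ) : ℚ[X] := ∏ l ∈ (range (90 * u)).erase k, (X ^ 2 - C (wk u l))

def Bs (u : ℕ) (a : Fin (90 * u) × Fin 2) : ℚ[X] := X ^ (a.2 : ℕ) * Om u a.1

/-- a point of the line `Re z = 1/2` -/
def zl (ξ : ℝ) : ℂ := 1 / 2 + ξ * Complex.I

/-- `1` to the left of the line, `-1` to the right -/
def sg (a : ℤ) : ℝ := if a ≤ 0 then 1 else -1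

def TT (T : ℕ) : Finset ℤ := AP 3 T ∪ AP 5 T ∪ AP 9 T

/-- the weight of the rank one term at `s` -/
def gA (u : ℕ) (y : Fin 4 → ℕ) (s : ℤ) : ℚ :=
  cf (10 * u) s * (zt y).eval (s : ℚ) * (∏ l ∈ range (90 * u), ((s : ℚ) ^ 2 - wk u l)) ^ 2

/-- the vector of the rank one term at `s` -/
def Us (u : ℕ) (s : ℤ) (a : Fin (90 * u) × Fin 2) : ℚ :=
  (s : ℚ) ^ (a.2 : ℕ) / ((s : ℚ) ^ 2 - wk u a.1)

/-- sums of `f` along progressions in `[lo, hi]` are at most `c` times the density -/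
def UB (f : ℝ → ℝ) (lo hi c : ℝ) : Prop :=
  ∃ C : ℝ, ∀ (u D x₀ : ℝ) (I : Finset ℕ), 1 ≤ u → 1 ≤ D →
    (∀ j ∈ I, lo * u ≤ x₀ + j * D ∧ x₀ + j * D ≤ hi * u) →
    ∑ j ∈ I, f ((x₀ + j * D) / u) ≤ u * c / D + C

/-- the level on the line -/
def t0 : ℝ := -743 / 2

end

/-! ### the checker for the primes of size about `v` -/

def Fq (x : ℕ) : ℕ := (x + 1) * (x + 1) / 4

def phx (x ρ : ℕ) : ℕ := Fq x - Fq (x - 2 * ρ) + Fq (x - 2 * ρ - 1)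

def phN (a ρ n z : ℕ) : ℕ := if ρ = 0 ∧ n = 2 then 0 else phx (ρ + n - (z + a)) ρ

def np (e aA bA aB bB a3 b3 a5 b5 a9 b9 : ℕ) : ℕ :=
  if 1 ≤ b3 ∧ 1 ≤ b5 ∧ 1 ≤ b9 then
    (if 2 ≤ bA then 1 else 0) + (if e ≤ aB ∧ 2 ≤ bB + e then 1 else 0)
  else if 1 ≤ a3 ∧ 1 ≤ a5 ∧ 1 ≤ a9 then
    (if 1 ≤ aA ∧ 1 ≤ bA then 1 else 0) + (if 1 + e ≤ aB ∧ 1 ≤ bB + e then 1 else 0)
  else 0

def muC (e a aA bA aB bB a3 b3 a5 b5 a9 b9 : ℕ) : ℕ :=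
  phN a (aA + bA - 1 + (aB + bB - 1) - np e aA bA aB bB a3 b3 a5 b5 a9 b9)
    (np e aA bA aB bB a3 b3 a5 b5 a9 b9) (a3 + b3 - 1 + (a5 + b5 - 1) + (a9 + b9 - 1))

def lo (H M s : ℕ) : ℕ := (H + M + s * 100000) / 1000000

def hi (H M s : ℕ) : ℕ := (H + 2000000 - M - s * 100000) / 1000000

def mu (s1 s3 s9 e a HA HB H3 H5 H9 M₁ M₂ : ℕ) : ℕ :=
  muC e a (lo HA M₂ 0) (hi HA M₁ 0) (lo HB M₂ s1) (hi HB M₁ s1) (lo H3 M₁ s3) (hi H3 M₂ s3)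
    (lo H5 M₁ 5) (hi H5 M₂ 5) (lo H9 M₁ s9) (hi H9 M₂ s9)

def go (F : ℕ → ℕ → ℕ) : ℕ → List ℕ → ℕ
  | M, [] => F M 1000000 * (1000000 - M + 1)
  | M, M' :: l => F M M' * (M' - M + 1) + go F M' l

def ins (x : ℕ) : List ℕ → List ℕ
  | [] => [x]
  | y :: l => if x ≤ y then x :: y :: l else y :: ins x l

def b2 (H s : ℕ) (l : List ℕ) : List ℕ :=
  ins ((H + (10 - s) * 100000) % 1000000) (ins (1000000 - (H + s * 100000) % 1000000) l)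

def cellW (s1 s3 s9 e a HA HB H3 H5 H9 : ℕ) : ℕ :=
  go (mu s1 s3 s9 e a HA HB H3 H5 H9) 0
    (b2 (HA + 1) 0 (b2 (HB + 1) s1 (b2 H3 s3 (b2 H5 5 (b2 H9 s9 [])))))

def cellB (s1 s3 s9 e a P₁ P₂ : ℕ) : ℕ :=
  18000000000 * a + P₂ * cellW s1 s3 s9 e a (10000000000 / P₁ + 2) (23000000000 / P₁ + 2)
    (2000000000 / P₂ - 1) (6000000000 / P₂ - 1) (5000000000 / P₂ - 1)

/-- the residues that go with the class `r` of `p` mod `10` -/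
def Cls (r s1 s3 s9 e : ℕ) : Prop :=
  (r = 1 ∧ s1 = 9 ∧ s3 = 7 ∧ s9 = 1 ∧ e = 1) ∨ (r = 3 ∧ s1 = 3 ∧ s3 = 9 ∧ s9 = 7 ∧ e = 0) ∨
  (r = 7 ∧ s1 = 7 ∧ s3 = 1 ∧ s9 = 3 ∧ e = 1) ∨ (r = 9 ∧ s1 = 1 ∧ s3 = 3 ∧ s9 = 9 ∧ e = 0)

/-! ### fixed point arithmetic, scale `10 ^ 12` -/

def ser (a b : ℕ) : ℕ :=
  2000000000000 * (a * (45045 * b ^ 12 + 15015 * a ^ 2 * b ^ 10 + 9009 * a ^ 4 * b ^ 8 +
    6435 * a ^ 6 * b ^ 6 + 5005 * a ^ 8 * b ^ 4 + 4095 * a ^ 10 * b ^ 2 + 3465 * a ^ 12)) /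
    (45045 * b ^ 13)

def lnC (n : ℕ) : ℕ := n.log2 * 693147180560 + ser (n - 2 ^ n.log2) (n + 2 ^ n.log2)

def alt (a b : ℕ) : ℕ :=
  1000000000000 * (a * (45045 * b ^ 12 + 9009 * a ^ 4 * b ^ 8 + 5005 * a ^ 8 * b ^ 4 +
    3465 * a ^ 12 - (15015 * a ^ 2 * b ^ 10 + 6435 * a ^ 6 * b ^ 6 + 4095 * a ^ 10 * b ^ 2))) /
    (45045 * b ^ 13)

def atC (a b : ℕ) : ℕ :=
  if 12 * a ≤ 5 * b then alt a b
  else if 12 * b ≤ 5 * a then 1570796326795 - alt b a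
  else if a ≤ b then 785398163397 - alt (b - a) (a + b) else 785398163397 + alt (a - b) (a + b)

def GN (a b : ℕ) : ℕ := a * lnC (a * a + b * b) + if b = 0 then 0 else 2 * b * atC a b

def EN (a b β : ℕ) : ℤ :=
  if a = 0 then 2 * GN β b
  else if a ≤ β then GN (β - a) b + GN (β + a) b else (GN (β + a) b : ℤ) - GN (a - β) b

def phP (a b : ℕ) : ℤ :=
  40 * (EN a b 200 + EN a b 600 + EN a b 500 + EN a b 1000) + 6 * EN b a 1840 + 4 * EN b a 5440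

def phM (a b : ℕ) : ℤ := 40 * EN a b 2300 + 80 * EN a b 460 + 10 * EN b a 400

def uP (a b : ℕ) : ℤ := 40 * EN a b 1000 + 3 * EN b a 1840 + 2 * EN b a 5440

def uM (a b : ℕ) : ℤ := 40 * EN a b 460 + 5 * EN b a 400

/-- an upper sum with `n` steps, of length `h + x / q` at `x` -/
def acc (f g : ℕ → ℤ) (c : ℤ) (h q : ℕ) : ℕ → ℕ → ℕ
  | 0, _ => 0
  | n + 1, x => (h + x / q) * (f (x + (h + x / q)) - g x - c).toNat +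
      acc f g c h q n (x + (h + x / q))

def en (h q : ℕ) : ℕ → ℕ → ℕ
  | 0, x => x
  | n + 1, x => en h q n (x + (h + x / q))

/-- the chain of cells -/
def ch (s1 s3 s9 e : ℕ) (A : ℕ → ℕ) (q : ℕ) : ℕ → ℕ → ℕ
  | 0, _ => 0
  | n + 1, P => cellB s1 s3 s9 e (A P) P (P + (1 + P / q)) * (1 + P / q) +
      ch s1 s3 s9 e A q n (P + (1 + P / q))

end Pool.Agent.MP_760060_nt.W
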