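import Pool.Agent.MP_760060_nt.W.Basic

/-! The statements of the lemmas. -/

open Finset Polynomial Filter Topology

namespace Pool.Agent.MP_760060_nt.W

/-! ### the determinant does not vanish -/

def StN1 : Prop := ∀ (S : Finset ℤ) (F : ℤ → ℚ) (k : ℕ), k ≤ #S →
  (∀ j < k, dd S (fun x => F x * (x : ℚ) ^ j) = 0) →
  ∃ Q : ℚ[X], Q.degree < (#S - k : ℕ) ∧ ∀ x ∈ S, Q.eval (x : ℚ) = F x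

def StN3 : Prop := ∀ Q R : ℚ[X],
  (X + 3) * (X + 5) * (X + 9) * (Q.comp (X + 10) * R - Q * R.comp (X + 10)) =
    (8 * (X + 3) * (X + 9) - 10 * (X + 3) * (X + 5) - 3 * (X + 5) * (X + 9)) * R *
      R.comp (X + 10) → R = 0

def StN4 : Prop := ∀ v : ℕ, 1 ≤ v → ∀ f : ℚ[X], f.degree < (18 * v : ℕ) →
  (∀ j < 18 * v + 4, LL v (f * X ^ j) = 0) → f = 0

def StN5 : Prop := ∀ (Λ : ℚ[X] →ₗ[ℚ] ℚ) (d k : ℕ),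
  (∀ f : ℚ[X], f.degree < d → (∀ j < d + k + 1, Λ (f * X ^ j) = 0) → f = 0) →
  ∃ y : ℕ, y ≤ d ∧ ∀ f : ℚ[X], f.degree < d →
    (∀ j < d + k, Λ ((X - C (y : ℚ)) * f * X ^ j) = 0) → f = 0

def StNZ : Prop := ∀ v : ℕ, 1 ≤ v → ∃ y : Fin 4 → ℕ, (∀ k, y k ≤ 18 * v) ∧ HH v y ≠ 0

/-! ### determinants and Newton bases -/

def StLemD : Prop := ∀ (p : ℕ) [Fact p.Prime] (ι κ : Type) [Fintype ι] [DecidableEq ι] [Fintype κ]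
  (U W : Matrix κ ι ℚ) (B : Matrix κ κ ℚ) (a : κ → ℝ) (τ : ℝ),
  (∀ α i, Vb p 0 (U α i)) → (∀ α i, Vb p 0 (W α i)) →
  (∀ α β, Vb p (-(a α + a β) / 2) (B α β)) →
  Vb p (∑ α, max 0 (τ - a α) - Fintype.card ι * τ) (U.transpose * B * W).det

def StBlkD : Prop := ∀ (p : ℕ) [Fact p.Prime] (d n : ℕ) (Q : ℕ → Fin d → Fin d → ℚ) (k : ℕ → ℕ)
  (a : ℕ → ℕ → ℝ) (τ : ℝ), (∀ m < n, Rep p (Q m) (k m) (a m)) →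
  Vb p (∑ m ∈ range n, ∑ i ∈ range (k m), max 0 (τ - a m i) - d * τ)
    (Matrix.of fun s t => ∑ m ∈ range n, Q m s t).det

def StNewt : Prop := ∀ (k : ℕ) (x : ℕ → ℤ) (f : ℤ[X]), ∃ γ : ℕ → ℤ, ∀ j < k,
  f.eval (x j) = ∑ i ∈ range k, γ i * ∏ l ∈ range i, (x j - x l)

def StBlk : Prop := ∀ (p : ℕ) [Fact p.Prime] (d : ℕ) (S N : Finset ℤ) (z : ℕ) (c : ℤ → ℚ),
  N ⊆ S → (∀ x ∈ S, ∀ x' ∈ S, (p : ℤ) ∣ x - x') → (∀ x ∈ S, Vb p ((#S : ℝ) - z) (c x)) →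
  (∀ x ∈ N, Vb p ((#S : ℝ) - z - 1) (c x)) →
  Rep p (fun s t : Fin d => ∑ x ∈ S, c x * (x : ℚ) ^ (s : ℕ) * (x : ℚ) ^ (t : ℕ)) #S
    fun i => (aa (#S - #N) #N z i : ℝ)

def StBlkW : Prop := ∀ (p : ℕ) [Fact p.Prime] (d : ℕ) (x x' : ℤ) (c : ℤ → ℚ), x ≠ x' →
  (p : ℤ) ∣ x - x' → Vb p 1 (c x') → Vb p 0 (c x + c x') →
  Rep p (fun s t : Fin d => ∑ w ∈ ({x, x'} : Finset ℤ),
    c w * (w : ℚ) ^ (s : ℕ) * (w : ℚ) ^ (t : ℕ)) 2 fun _ => 0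

/-! ### the local analysis -/

def StMod : Prop := ∀ (v : ℕ) (ξ : ℤ → ℤ) (f : ℚ[X]), 1 ≤ v →
  (∀ t, wt t ≠ 0 → t ∉ ZZ v → (t < ξ t ↔ t < 0)) → f.natDegree ≤ 36 * v + 2 →
  LL v f = ∑ x ∈ XX v, lamS v ξ x * cf v x * f.eval (x : ℚ)

def StLamI : Prop := ∀ (v p : ℕ) [Fact p.Prime] (ξ : ℤ → ℤ) (x : ℤ), 1 ≤ v → 500 * v < p ^ 2 →
  x ∈ XX v → Vb p 1 (lamS v ξ x) ∧ (NP p ξ x → Vb p 0 (lamS v ξ x))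

def StLamC : Prop := ∀ (v p : ℕ) [Fact p.Prime] (ξ : ℤ → ℤ) (x x' : ℤ), 1 ≤ v → x ∈ XA v →
  x' ∈ XX v → (p : ℤ) ∣ x - x' → NP p ξ x →
  Vb p (-1) (lamS v ξ x - lamS v ξ x' + lam (x' - x))

def StCf : Prop := ∀ (v p m : ℕ) [Fact p.Prime] (x : ℤ), 1 ≤ v → 500 * v < p ^ 2 →
  x ∈ cl p m (XX v) → Vb p ((#(cl p m (XX v)) : ℝ) - #(cl p m (ZZ v)) - 1) (cf v x)

def StCfW : Prop := ∀ (v p m : ℕ) [Fact p.Prime] (y : Fin 4 → ℕ) (x x' : ℤ) (F : ℤ → ℚ), 1 ≤ v →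
  500 * v < p ^ 2 → x ≠ x' → cl p m (XX v) = {x, x'} → Vb p 0 (F x) → Vb p 0 (F x') →
  Vb p (-1) (F x - F x') →
  Vb p 0 (F x * cf v x * (zt y).eval (x : ℚ) + F x' * cf v x' * (zt y).eval (x' : ℚ))

def StPair : Prop := ∀ (p : ℕ) (ξ x x' : ℤ), Cop p → x ≠ x' → (x % 10 = 0 ∨ x % 10 = 9) →
  (x' % 10 = 0 ∨ x' % 10 = 9) → (p : ℤ) ∣ x - x' → NP p (fun _ => ξ) x → NP p (fun _ => ξ) x' →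
  (x % 10 = 0 ∧ x' = x + dl p * p) ∨ (x' % 10 = 0 ∧ x = x' + dl p * p)

def StLer : Prop := ∀ (p : ℕ) [Fact p.Prime], Cop p → Wf p →
  Vb p (-1) (∑ j ∈ Icc 1 9, harmonic (j * p / 10))

def StHs : Prop := ∀ (p n : ℕ) [Fact p.Prime], p ≠ 2 → n < p →
  Vb p (-1) (harmonic (p - 1 - n) - harmonic n) ∧
  Vb p (-1) (2 * harmonic n - harmonic (n / 2) + harmonic (p / 2) - harmonic ((p - 1 - n) / 2))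

def StHres : Prop := ∀ (p e j c : ℕ) [Fact p.Prime], Cop p → j + e ≤ 9 → c < 10 →
  (j * p + c) % 10 = 0 →
  Vb p (-1) (10 * ∑ m ∈ (Ioo 0 (e * p)).filter (fun m => m % 10 = c), ((m : ℕ) : ℚ)⁻¹ -
    (harmonic ((j + e) * p / 10) - harmonic (j * p / 10)))

def StKap : Prop := ∀ (p : ℕ) [Fact p.Prime], Cop p → Wf p → Vb p (-1) (lam (dl p * p))

def StPhi : Prop :=
  (∀ a ρ n z : ℕ, PhW (-(a : ℤ)) ρ n z ≤ phN a ρ n z) ∧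
  (∀ (τ : ℤ) (ρ n z ρ' n' z' : ℕ), τ ≤ 0 → ρ ≤ ρ' → n ≤ n' → z' ≤ z →
    PhW τ ρ n z ≤ PhW τ ρ' n' z') ∧
  (∀ (τ : ℤ) (k z : ℕ), 4 * PhW τ k 0 z ≤ (τ + k - z + 1) ^ 2) ∧
  ∀ (τ : ℤ) (z : ℕ), τ ≤ 0 → Phi τ 0 2 z ≤ 1

def StCls : Prop := ∀ (v p m : ℕ) [Fact p.Prime] (y : Fin 4 → ℕ) (τ ξ₀ : ℤ) (ξ : ℤ → ℤ)
  (N : Finset ℤ), 1 ≤ v → Cop p → 500 * v < p ^ 2 → τ ≤ 0 → Good v p m ξ₀ N →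
  (∀ t : ℤ, (p : ℤ) ∣ t - 10 * m → ξ t = ξ₀) →
  ∃ a : ℕ → ℝ, Rep p (fun s t : Fin (18 * v) => ∑ x ∈ cl p m (XX v),
      cw v y ξ x * (x : ℚ) ^ (s : ℕ) * (x : ℚ) ^ (t : ℕ)) #(cl p m (XX v)) a ∧
    ∑ i ∈ range #(cl p m (XX v)), max 0 ((τ : ℝ) - a i) ≤
      (PhW τ (#(cl p m (XX v)) - #N) #N #(cl p m (ZZ v)) : ℝ) +
        if Wf p then 0 else (#(cl p m (XX v)) : ℝ)

def StLoc : Prop := ∀ (v p : ℕ) [Fact p.Prime] (y : Fin 4 → ℕ) (τ : ℤ) (g : ℕ → ℝ), 1 ≤ v →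
  Cop p → 500 * v < p ^ 2 → τ ≤ 0 → (∀ m < p, Cost v p m τ (g m)) →
  Vb p (∑ m ∈ range p, g m - 18 * v * τ + nw v p) (HH v y)

def StWin : Prop := ∀ (p m h : ℕ) (c : ℤ), Cop p →
  (2 * h + 1) / p ≤ #(cl p m (AP c h)) ∧ #(cl p m (AP c h)) ≤ (2 * h + 1) / p + 1

def StMid : Prop := ∀ (v p : ℕ) [Fact p.Prime] (y : Fin 4 → ℕ), 1 ≤ v → Cop p → 500 * v < p ^ 2 →
  Vb p (396 * (v : ℝ) ^ 2 / p + 18 * v + 13 * p / 8 + nw v p) (HH v y)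

/-! ### small primes -/

def StPl : Prop := ∀ (p n : ℕ) [Fact p.Prime] (a D : ℤ), ¬ (p : ℤ) ∣ D →
  Vb p (-((n : ℝ) / (p - 1)) + Nat.log p n + 1) (∏ i ∈ range n, ((a : ℚ) + D * i))

def StPu : Prop := ∀ (p n R : ℕ) [Fact p.Prime] (a D : ℤ) (I : Finset ℕ), ¬ (p : ℤ) ∣ D →
  I ⊆ range n → (∀ i ∈ I, |a + D * i| ≤ R) →
  Vb p ((n : ℝ) / (p - 1) + Nat.log p R) (∏ i ∈ I, ((a : ℚ) + D * i))⁻¹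

def StChg : Prop := ∀ (v : ℕ) (y : Fin 4 → ℕ) (B : Fin (18 * v) → ℚ[X]),
  ((∀ i, (B i).natDegree < 18 * v) → (KK v y B).det =
    (Matrix.of fun i j : Fin (18 * v) => (B i).coeff j).det ^ 2 * HH v y) ∧
  ((∀ i, (B i).Monic ∧ (B i).natDegree = i) → (KK v y B).det = HH v y)

def StLamL : Prop := ∀ (v p : ℕ) [Fact p.Prime] (x : ℤ), 1 ≤ v → x ∈ XX v →
  Vb p (Nat.log p (500 * v)) (lam x)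

def StSmall : Prop := ∀ (v p : ℕ) [Fact p.Prime] (y : Fin 4 → ℕ), 1 ≤ v → Cop p →
  Vb p (396 * (v : ℝ) ^ 2 / (p - 1) + 200 * v * (Nat.log p (500 * v) + 1)) (HH v y)

def StAna : Prop := ∀ (p h : ℕ) [Fact p.Prime] (c : ℤ) (T : Multiset ℤ) (Y : Finset ℤ),
  (p : ℤ) ∣ 10 → ¬ (p : ℤ) ∣ 3 - c → ¬ (p : ℤ) ∣ 5 - c → ¬ (p : ℤ) ∣ 9 - c →
  (∀ w ∈ Y, ¬ (p : ℤ) ∣ w + c) →
  Vb p (1 + Nat.log p (2 * h)) (dd (AP c h) fun x =>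
    lam x * (T.map fun t : ℤ => (x : ℚ) - t).prod / ∏ w ∈ Y, ((x : ℚ) - w))

def StTwo : Prop := ∀ (v : ℕ) (y : Fin 4 → ℕ), 1 ≤ v →
  Vb 2 (200 * (v : ℝ) ^ 2 + 200 * v * (Nat.log 2 (500 * v) + 1)) (HH v y)

def StFive : Prop := ∀ (v : ℕ) (y : Fin 4 → ℕ), 1 ≤ v →
  Vb 5 (20 * (v : ℝ) ^ 2 + 200 * v * (Nat.log 5 (500 * v) + 1)) (HH v y)

def StBig : Prop := ∀ (v p : ℕ) [Fact p.Prime] (y : Fin 4 → ℕ), 1 ≤ v → 461 * v < p →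
  Vb p 0 (HH v y)

/-! ### the checker -/

def StFam : Prop := ∀ (p m s h H M₁ M₂ : ℕ) (u : ℤ), Cop p → 0 ≤ u → u ≤ 9 → s ≤ 9 →
  ((p : ℤ) * s + u) % 10 = 0 → M₁ * p ≤ 1000000 * m → 1000000 * m ≤ M₂ * p → M₁ ≤ 1000000 →
  M₂ ≤ 1000000 →
  (∀ t : ℤ, ((p : ℤ) ∣ t - 10 * m ∧ (t + u) % 10 = 0) ↔ ∃ i : ℤ, t = 10 * m + p * (s + 10 * i)) ∧
  (1000000 * h + 900000 ≤ H * p → ∀ i : ℤ, 10 * m + p * (s + 10 * i) ∈ AP u h →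
    -(lo H M₂ s : ℤ) ≤ i ∧ i + 2 ≤ hi H M₁ s) ∧
  (H * p + 900000 ≤ 1000000 * h → ∀ i : ℤ,
    (-(lo H M₁ s : ℤ) ≤ i → -(10 * (h : ℤ)) ≤ 10 * m + p * (s + 10 * i) + u) ∧
    (i + 2 ≤ hi H M₂ s → 10 * m + p * (s + 10 * i) + u ≤ 10 * (h : ℤ)))

/-- counting in one family; `j` is an index that is set aside -/
def StCnt : Prop := ∀ (p m s h a b : ℕ) (u j : ℤ), 0 < p →
  (∀ t : ℤ, ((p : ℤ) ∣ t - 10 * m ∧ (t + u) % 10 = 0) ↔ ∃ i : ℤ, t = 10 * m + p * (s + 10 * i)) →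
  ((∀ i : ℤ, 10 * m + p * (s + 10 * i) ∈ AP u h → -(a : ℤ) ≤ i ∧ i + 2 ≤ b) →
    #(cl p m (AP u h)) ≤ a + b - 1 ∧
    #((cl p m (AP u h)).erase (10 * m + p * (s + 10 * j))) +
      (if -(a : ℤ) ≤ j ∧ j + 2 ≤ b then 1 else 0) ≤ a + b - 1) ∧
  ((∀ i : ℤ, -(a : ℤ) ≤ i → i + 2 ≤ b → 10 * m + p * (s + 10 * i) ∈ AP u h) →
    a + b - 1 ≤ #(cl p m (AP u h)))

def StMu : Prop := ∀ (v p m s1 s3 s9 e a HA HB H3 H5 H9 M₁ M₂ : ℕ), Cls (p % 10) s1 s3 s9 e →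
  M₁ * p ≤ 1000000 * m → 1000000 * m ≤ M₂ * p → M₁ ≤ 1000000 → M₂ ≤ 1000000 →
  10000000 * v + 900000 ≤ HA * p → 23000000 * v + 900000 ≤ HB * p →
  H3 * p + 900000 ≤ 2000000 * v → H5 * p + 900000 ≤ 6000000 * v →
  H9 * p + 900000 ≤ 5000000 * v →
  Cost v p m (-(a : ℤ)) (mu s1 s3 s9 e a HA HB H3 H5 H9 M₁ M₂ : ℕ)

def StGo : Prop := ∀ (p : ℕ) (F : ℕ → ℕ → ℕ) (l : List ℕ), 1000000 ≤ p → (∀ M ∈ l, M ≤ 1000000) →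
  ∃ g : ℕ → ℕ, (∀ m < p, ∃ M₁ M₂, M₁ ≤ 1000000 ∧ M₂ ≤ 1000000 ∧ M₁ * p ≤ 1000000 * m ∧
    1000000 * m ≤ M₂ * p ∧ g m = F M₁ M₂) ∧ 1000000 * ∑ m ∈ range p, g m ≤ p * go F 0 l

def StCell : Prop := ∀ (v p s1 s3 s9 e a P₁ P₂ : ℕ) [Fact p.Prime] (y : Fin 4 → ℕ),
  Cls (p % 10) s1 s3 s9 e → 1000000 ≤ p → 500 * v < p ^ 2 → 0 < P₁ → P₂ ≤ 1000000 →
  P₁ * v ≤ 1000 * p → 1000 * p ≤ P₂ * v →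
  Vb p ((v : ℝ) * cellB s1 s3 s9 e a P₁ P₂ / 1000000000 + nw v p) (HH v y)

/-! ### sums over primes -/

def StTh : Prop := ∀ a : ℝ, 0 < a → Tendsto (fun x : ℝ => Chebyshev.theta (a * x) / x) atTop (𝓝 a)

def StThC : Prop := ∀ r P : ℕ, Cop r → r < 10 → Tendsto (fun v : ℕ =>
  (∑ p ∈ (Ioc 0 (P * v / 1000)).filter (fun p => p.Prime ∧ p % 10 = r), Real.log p) / v) atTop
  (𝓝 ((P : ℝ) / 4000))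

def StThL : Prop := Tendsto (fun v : ℕ => (∑ p ∈ (Ioc 0 (5 * v)).filter Nat.Prime,
  (18 * (v : ℝ) + 13 * p / 8) * Real.log p) / (v : ℝ) ^ 2) atTop (𝓝 (1765 / 16))

def StRg : Prop := ∀ r s1 s3 s9 e a P₁ P₂ : ℕ, Cls r s1 s3 s9 e → 5000 ≤ P₁ → P₁ ≤ P₂ →
  P₂ ≤ 1000000 → Rg r P₁ P₂ ((cellB s1 s3 s9 e a P₁ P₂ * (P₂ - P₁) : ℕ) / 4000000000000)

def StCh : Prop :=
  (∀ (r P₁ P₂ P₃ : ℕ) (c c' : ℝ), P₁ ≤ P₂ → P₂ ≤ P₃ → Rg r P₁ P₂ c → Rg r P₂ P₃ c' →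
    Rg r P₁ P₃ (c + c')) ∧
  (∀ r P : ℕ, 461000 ≤ P → Rg r P 500000 0) ∧
  ∀ (r s1 s3 s9 e : ℕ) (A : ℕ → ℕ) (q n P P' c : ℕ), Cls r s1 s3 s9 e → 5000 ≤ P →
    en 1 q n P = P' → P' ≤ 1000000 → ch s1 s3 s9 e A q n P ≤ c * 4000000000000 →
    P ≤ P' ∧ Rg r P P' c

def StHigh : Prop := ∀ ε : ℝ, 0 < ε → ∀ᶠ v : ℕ in atTop, ∀ y : Fin 4 → ℕ, HH v y ≠ 0 →
  ∑ p ∈ (Ioc (5 * v) (500 * v)).filter Nat.Prime, ex v y p * Real.log p ≤ (1680 + ε) * (v : ℝ) ^ 2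

def StPF : Prop := ∀ (x : ℚ) (N : ℕ), x ≠ 0 → (∀ p : ℕ, p.Prime → N < p → Vb p 0 x) →
  ∑ p ∈ (Ioc 0 N).filter Nat.Prime, (padicValRat p x : ℝ) * Real.log p ≤ Real.log |(x : ℝ)|

def StMert : Prop := ∀ᶠ v : ℕ in atTop, ∑ p ∈ (Ioc 0 (5 * v)).filter Nat.Prime,
  (if p ^ 2 ≤ 500 * v then 1 / ((p : ℝ) - 1) else 1 / p) * Real.log p ≤
    Real.log (250 * v) - 4479 / 1000

def StErr : Prop := ∀ ε : ℝ, 0 < ε → ∀ᶠ v : ℕ in atTop,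
  ∑ p ∈ (Ioc 0 (5 * v)).filter (fun p => p.Prime ∧ p ^ 2 ≤ 500 * v),
    ((Nat.log p (500 * v) : ℝ) + 1) * Real.log p ≤ ε * v

def StLow : Prop := ∀ ε : ℝ, 0 < ε → ∀ᶠ v : ℕ in atTop, ∀ y : Fin 4 → ℕ, HH v y ≠ 0 →
  ∑ p ∈ (Ioc 0 (5 * v)).filter Nat.Prime, ex v y p * Real.log p ≤
    (396 * (Real.log (250 * v) - 4479 / 1000) - 196 * Real.log 2 - 79 * Real.log 5 +
      1765 / 16 + ε) * (v : ℝ) ^ 2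

/-! ### potentials -/

def StFaA : Prop :=
  (∀ a b : ℝ, Fa (-a) b = -Fa a b) ∧ (∀ a b : ℝ, Fa a (-b) = Fa a b) ∧
  (∀ u a b : ℝ, 0 < u → Fa (u * a) (u * b) = u * Fa a b + u * a * Real.log u) ∧
  ∀ a b b' : ℝ, 0 ≤ a → 0 ≤ b → b ≤ b' → Fa a b ≤ Fa a b' ∧ Fa a b' ≤ Fa a b + 2 * (b' - b)

def StFaB : Prop := ∀ b s s' : ℝ, 0 ≤ s → s ≤ s' →
  Fa s' b - Fa s b ≤ (s' - s) * lg s' b ∧ (0 < s ^ 2 + b ^ 2 → (s' - s) * lg s b ≤ Fa s' b - Fa s b)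

def StMono : Prop := ∀ β ξ ξ' : ℝ, 0 ≤ β → 0 ≤ ξ → ξ ≤ ξ' →
  Er ξ 0 β ≤ Er ξ' 0 β ∧ Er 0 ξ β ≤ Er 0 ξ' β

def StLip : Prop := ∃ K : ℝ, 0 ≤ K ∧ ∀ R a a' b b' : ℝ, 2 ≤ R → |a| ≤ R → |a'| ≤ R → |b| ≤ R →
  |b'| ≤ R → |a - a'| ≤ 200 → |(|b|) - (|b'|)| ≤ 1 → |Fa a b - Fa a' b'| ≤ K * Real.log R

def StSum : Prop := ∃ K : ℝ, 0 ≤ K ∧ ∀ (R D s b e₁ e₂ b' : ℝ) (n j₀ : ℕ), 2 ≤ R → 1 ≤ D →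
  D ≤ 200 → |s| ≤ R → |s + n * D| ≤ R → |b| ≤ R → |e₁| ≤ R → |e₂| ≤ R → |b'| ≤ R →
  |s - e₁| ≤ 200 → |s + n * D - e₂| ≤ 200 → |(|b|) - (|b'|)| ≤ 1 →
  (∀ j < n, j ≠ j₀ → 1 / 4 ≤ (s + j * D) ^ 2 + b ^ 2) →
  |∑ j ∈ (range n).erase j₀, lg (s + j * D) b - (Fa e₂ b' - Fa e₁ b') / D| ≤ K * Real.log R

def StZX : Prop := ∃ K : ℝ, 0 ≤ K ∧ ∀ (u : ℕ) (z : ℂ) (x₀ : ℤ) (a b R : ℝ), 1 ≤ u →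
  6000 * (u : ℝ) ≤ R → ‖z‖ ≤ R → |(|z.re|) - a| ≤ 1 → |(|z.im|) - b| ≤ 1 →
  (∀ t ∈ ZZ (10 * u), 1 / 2 ≤ ‖z - t‖) → (∀ x ∈ (XX (10 * u)).erase x₀, 1 / 2 ≤ ‖z - x‖) →
  |Real.log ‖(∏ t ∈ ZZ (10 * u), (z - t)) / ∏ x ∈ (XX (10 * u)).erase x₀, (z - x)‖ -
    (u * ZX (a / u) (b / u) - 400 * u * Real.log u)| ≤ K * Real.log R

def StOm : Prop := ∃ K : ℝ, 0 ≤ K ∧ ∀ (u k₀ : ℕ) (z : ℂ) (a b R : ℝ), 1 ≤ u →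
  6000 * (u : ℝ) ≤ R → ‖z‖ ≤ R → |(|z.re|) - a| ≤ 1 → |(|z.im|) - b| ≤ 1 →
  (∀ l < 90 * u, l ≠ k₀ → 1 / 2 ≤ ‖z - nd u l‖ ∧ 1 / 2 ≤ ‖z + nd u l‖) →
  |Real.log ‖∏ l ∈ (range (90 * u)).erase k₀, (z ^ 2 - (wk u l : ℂ))‖ -
    (u * UU (a / u) (b / u) + 180 * u * Real.log u)| ≤ K * Real.log R

/-! ### numerical bounds -/

def StLn : Prop := ∀ n : ℕ, 1 ≤ n → n ≤ 1000000000 →
  |1000000000000 * Real.log n - lnC n| ≤ 200000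

def StAt : Prop := ∀ a b : ℕ, 0 < b →
  |1000000000000 * Real.arctan ((a : ℝ) / b) - atC a b| ≤ 200000

def StEN : Prop := ∀ a b β : ℕ, a + β ≤ 20000 → b ≤ 20000 →
  |2000000000000 * (Er a b β + 2 * β) - EN a b β| ≤ 30000000000

def StEnc : Prop := ∀ (x x' : ℕ) (ξ : ℝ), (x : ℝ) ≤ ξ → ξ ≤ x' → x' ≤ 14500 →
  ph ξ 0 ≤ ((phP x' 0 - phM x 0 : ℤ) : ℝ) / 800000000000000 + 40012 / 1000 ∧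
  ph 0 ξ ≤ ((phP 0 x' - phM 0 x : ℤ) : ℝ) / 800000000000000 + 40012 / 1000 ∧
  -UU ξ 0 ≤ ((uM x' 0 - uP x 0 : ℤ) : ℝ) / 800000000000000 + 180004 / 1000 ∧
  -UU 0 ξ ≤ ((uM 0 x' - uP 0 x : ℤ) : ℝ) / 800000000000000 + 180004 / 1000

def StUB : Prop :=
  (∀ (f : ℝ → ℝ) (x x' b : ℝ), x ≤ x' → 0 ≤ b → (∀ ξ, x ≤ ξ → ξ ≤ x' → f ξ ≤ b) →
    UB f x x' (b * (x' - x))) ∧
  (∀ (f : ℝ → ℝ) (x x' x'' c c' : ℝ), UB f x x' c → UB f x' x'' c' → UB f x x'' (c + c')) ∧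
  ∀ (f : ℝ → ℝ) (x x' c c' : ℝ), c ≤ c' → UB f x x' c → UB f x x' c'

def StAcc : Prop := ∀ (F : ℝ → ℝ) (f g : ℕ → ℤ) (c : ℤ) (h q n x x' : ℕ), 0 < h → 0 < n →
  en h q n x = x' → x' ≤ 14500 →
  (∀ (w w' : ℕ) (ξ : ℝ), (w : ℝ) ≤ ξ → ξ ≤ w' → w' ≤ 14500 →
    F ξ ≤ max 0 (((f w' - g w - c : ℤ) : ℝ) / 800000000000000)) →
  (∀ b : ℕ, acc f g c h q n x ≤ b * 800000000000000 → UB F x x' b) ∧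
  (acc f g c h q n x = 0 → ∀ ξ : ℝ, (x : ℝ) ≤ ξ → ξ ≤ x' → F ξ ≤ 0)

def StCL : Prop := ∀ ξ : ℝ, 0 ≤ ξ → ξ ≤ 14000 → ph 0 ξ ≤ t0

def StTail : Prop := ∀ ξ : ℝ, 14000 ≤ ξ → ph 0 ξ ≤ t0 - 40 * Real.log (ξ / 14000)

def StCA : Prop := UB (fun ξ => max 0 (ph ξ 0 - t0)) 0 1000 44700

def StCY : Prop := UB (fun ξ => 1700 - UU ξ 0) 460 1000 268100 ∧
  UB (fun ξ => 1700 - UU 0 ξ) 400 1840 568000 ∧ UB (fun ξ => 1700 - UU 0 ξ) 1840 5440 892800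

/-! ### the real size of the determinant -/

def StInt : Prop := ∀ (S T : Finset ℤ) (g w : ℤ → ℝ) (c κ : ℝ), Disjoint S T →
  (∀ ξ : ℝ, ‖(∑ x ∈ S, (g x : ℂ) / (zl ξ - x)) * (∑ t ∈ T, (w t : ℂ) / (zl ξ - t) + c)‖ ≤
    κ / (1 + ξ ^ 2)) →
  |∑ x ∈ S, g x * (∑ t ∈ T, w t * (sg x - sg t) / (x - t) + c * sg x)| ≤ κ

def StJT : Prop := ∀ (T : ℕ) (ξ : ℝ),
  ‖∑ t ∈ TT T, (((wt t : ℤ) : ℝ) : ℂ) / (zl ξ - t)‖ ≤ 300 * (1 + ξ ^ 2)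

def StCst : Prop := ∃ K : ℝ, 0 ≤ K ∧ ∀ (v : ℕ) (η : ℝ), 0 < η →
  ∃ (T : ℕ) (c c₀ : ℝ) (a : ℤ → ℝ), |c| ≤ K ∧ (∀ x, |a x| ≤ K) ∧ ∀ x ∈ XX v,
    |(lam x : ℝ) - ((∑ t ∈ TT T, (wt t : ℝ) * (sg x - sg t) / (x - t) + c * sg x) / 2 + c₀ +
      if x ∈ XA v then a x else 0)| ≤ η

def StRep : Prop := ∃ K : ℝ, 1 ≤ K ∧ ∀ (v : ℕ) (η : ℝ), 0 < η → ∃ a : ℤ → ℝ, (∀ x, |a x| ≤ K) ∧
  ∀ (g : ℤ → ℝ) (κ : ℝ), ∑ x ∈ XX v, g x = 0 →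
    (∀ ξ : ℝ, ‖∑ x ∈ XX v, (g x : ℂ) / (zl ξ - x)‖ ≤ κ / (1 + ξ ^ 2) ^ 2) →
    |∑ x ∈ XX v, (lam x : ℝ) * g x - ∑ x ∈ XA v, a x * g x| ≤ K * κ + η * ∑ x ∈ XX v, |g x|

def StPfr : Prop := ∀ (S : Finset ℤ) (G : ℚ[X]) (z : ℂ), G.degree < #S → (∀ x ∈ S, z ≠ x) →
  ∑ x ∈ S, ((G.eval (x : ℚ) / om S x : ℚ) : ℂ) / (z - x) = aeval z G / ∏ x ∈ S, (z - x)

def StDR : Prop := ∀ (ι : Type) [Fintype ι] [DecidableEq ι] (S : Finset ℤ) (M : Matrix ι ι ℝ)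
  (g : ℤ → ℝ) (U : ℤ → ι → ℝ) (κ η : ℝ), 0 < κ → 1 ≤ η → (∀ i j, |M i j| ≤ κ) →
  (∀ s ∈ S, ∀ i, |U s i| ≤ η) →
  |(Matrix.of fun i j => M i j + ∑ s ∈ S, g s * U s i * U s j).det| ≤
    (Fintype.card ι).factorial * ((#S : ℝ) + 1) ^ Fintype.card ι *
      (κ * η ^ 2) ^ Fintype.card ι * ∏ s ∈ S, max 1 (|g s| / κ)

def StLag : Prop := ∀ (u : ℕ) (y : Fin 4 → ℕ), 1 ≤ u →
  |HH (10 * u) y| * (∏ k ∈ range (90 * u), ∏ l ∈ (range (90 * u)).erase k,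
    |wk u k - wk u l|) ^ 2 = |(KK (10 * u) y (Bs u)).det|

def StLine : Prop := ∃ K : ℝ, ∀ᶠ u : ℕ in atTop, ∀ y : Fin 4 → ℕ, (∀ k, y k ≤ 180 * u) →
  ∀ (i j : Fin (90 * u) × Fin 2) (ξ : ℝ),
    ‖(∏ t ∈ ZZ (10 * u), (zl ξ - t)) * aeval (zl ξ) (zt y * Bs u i * Bs u j) /
      ∏ x ∈ XX (10 * u), (zl ξ - x)‖ ≤
    Real.exp (u * t0 - 40 * u * Real.log u + K * Real.log u) / (1 + ξ ^ 2) ^ 2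

def StApt : Prop := ∃ K : ℝ, ∀ᶠ u : ℕ in atTop, ∀ y : Fin 4 → ℕ, (∀ k, y k ≤ 180 * u) →
  ∀ s ∈ XA (10 * u), |(gA u y s : ℝ)| ≤
    Real.exp (u * ph (|(s : ℝ)| / u) 0 - 40 * u * Real.log u + K * Real.log u)

def StUs : Prop := ∀ (u : ℕ) (s : ℤ) (i : Fin (90 * u) × Fin 2), s ∈ XA (10 * u) →
  (Bs u i).eval (s : ℚ) = (∏ l ∈ range (90 * u), ((s : ℚ) ^ 2 - wk u l)) * Us u s i ∧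
  |Us u s i| ≤ 1000 * u ∧ (Bs u i).natDegree < 180 * u

def StK0 : Prop := ∃ K : ℝ, ∀ᶠ u : ℕ in atTop, ∀ y : Fin 4 → ℕ, (∀ k, y k ≤ 180 * u) →
  ∃ (M : Matrix (Fin (90 * u) × Fin 2) (Fin (90 * u) × Fin 2) ℝ) (a : ℤ → ℝ),
    (∀ s, |a s| ≤ u) ∧
    (∀ i j, |M i j| ≤ Real.exp (u * t0 - 40 * u * Real.log u + K * Real.log u)) ∧
    ∀ i j, (KK (10 * u) y (Bs u) i j : ℝ) =
      M i j + ∑ s ∈ XA (10 * u), a s * gA u y s * Us u s i * Us u s j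

def StSA : Prop := ∃ K : ℝ, ∀ u : ℕ, 1 ≤ u →
  ∑ s ∈ XA (10 * u), max 0 (ph (|(s : ℝ)| / u) 0 - t0) ≤ 8940 * u + K

def StDK : Prop := ∃ K : ℝ, ∀ᶠ u : ℕ in atTop, ∀ y : Fin 4 → ℕ, (∀ k, y k ≤ 180 * u) →
  |((KK (10 * u) y (Bs u)).det : ℝ)| ≤
    Real.exp (-57930 * (u : ℝ) ^ 2 - 7200 * u ^ 2 * Real.log u + K * u * Real.log u)

def StVY : Prop := ∃ K : ℝ, ∀ᶠ u : ℕ in atTop,
  Real.exp (114626 * (u : ℝ) ^ 2 + 16200 * u ^ 2 * Real.log u - K * u * Real.log u) ≤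
    ((∏ k ∈ range (90 * u), ∏ l ∈ (range (90 * u)).erase k, |wk u k - wk u l| : ℚ) : ℝ)

def StReal : Prop := ∃ K : ℝ, ∀ᶠ u : ℕ in atTop, ∀ y : Fin 4 → ℕ, (∀ k, y k ≤ 180 * u) →
  HH (10 * u) y ≠ 0 → Real.log |(HH (10 * u) y : ℝ)| ≤
    -287182 * (u : ℝ) ^ 2 - 39600 * u ^ 2 * Real.log u + K * u * Real.log u

/-! ### the end -/

def StMain : Prop := ∀ᶠ u : ℕ in atTop,
  (u : ℝ) ≤ ∑ p ∈ (Ioc 0 (5000 * u)).filter (fun p => p.Prime ∧ ¬ Wf p), Real.log p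

def StNW : Prop := ∃ c K : ℝ, 0 < c ∧ ∀ᶠ M : ℕ in atTop, c * Real.log (Real.log M) - K ≤
  ∑ p ∈ (Icc 1 M).filter (fun p => p.Prime ∧ ¬ p ^ 2 ∣ 10 ^ (p - 1) - 1), (1 : ℝ) / p

end Pool.Agent.MP_760060_nt.W
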